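import Mathlib
import Pool.Agent.N70.EO.Stm

set_option autoImplicit false

namespace Pool.Agent.N624.EO

open Polynomial

/-- an element of `RatFunc K` integral over `K` is a constant. -/
theorem const_of_integral (K : Type) [Field K] (f : RatFunc K) (hf : IsIntegral K f) :
    ∃ c : K, algebraMap K (RatFunc K) c = f := by
  have h1 : IsIntegral K[X] f := hf.tower_top
  obtain ⟨p, hp⟩ := IsIntegrallyClosed.isIntegral_iff.1 h1
  have h2 : IsAlgebraic K p := by
    have : IsAlgebraic K (algebraMap K[X] (RatFunc K) p) := by
      rw [hp]; exact hf.isAlgebraic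
    exact (isAlgebraic_algebraMap_iff (IsFractionRing.injective K[X] (RatFunc K))).1 this
  have h3 : p.natDegree = 0 := by
    by_contra h
    have hp0 : p ≠ 0 := by
      rintro rfl; simp at h
    exact Polynomial.transcendental p h
      (mem_nonZeroDivisors_of_ne_zero (leadingCoeff_ne_zero.2 hp0)) h2
  obtain ⟨c, hc⟩ := natDegree_eq_zero.1 h3
  refine ⟨c, ?_⟩
  rw [← hp, ← hc]
  rw [IsScalarTower.algebraMap_apply K K[X] (RatFunc K)]
  rfl

theorem ly (K L : Type) [Field K] [CharZero K] [Field L] [Algebra K L] [FiniteDimensional K L]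
    [IsGalois K L] :
    ∃ (L₁ : Type) (_ : Field L₁) (_ : Algebra (RatFunc K) L₁) (_ : Algebra L L₁)
      (_ : Algebra K L₁) (_ : IsScalarTower K (RatFunc K) L₁) (_ : IsScalarTower K L L₁)
      (_ : FiniteDimensional (RatFunc K) L₁) (_ : IsGalois (RatFunc K) L₁)
      (res : (L₁ ≃ₐ[RatFunc K] L₁) →* (L ≃ₐ[K] L)) (ϖ : L₁),
      Function.Surjective res ∧
      (∀ (h : L₁ ≃ₐ[RatFunc K] L₁) (b : L),
        h (algebraMap L L₁ b) = algebraMap L L₁ (res h b)) ∧
      ϖ ^ 2 = algebraMap (RatFunc K) L₁ RatFunc.X := by
  classical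
  have : CharZero (RatFunc K) := charZero_of_injective_algebraMap (algebraMap K (RatFunc K)).injective
  obtain ⟨p, hpsep, hps⟩ := IsGalois.is_separable_splitting_field K L
  have := hps
  have hp0 : p ≠ 0 := hpsep.ne_zero
  set q : (RatFunc K)[X] := X ^ 2 - C RatFunc.X with hq
  have hq0 : q.natDegree = 2 := by rw [hq]; exact natDegree_X_pow_sub_C
  have hqne : q ≠ 0 := by intro h; rw [h] at hq0; simp at hq0
  set P : (RatFunc K)[X] := p.map (algebraMap K (RatFunc K)) * q with hP
  have hpm : p.map (algebraMap K (RatFunc K)) ≠ 0 := by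
    rwa [Ne, Polynomial.map_eq_zero]
  have hPne : P ≠ 0 := mul_ne_zero hpm hqne
  have hsp := SplittingField.splits P
  have hPm : P.map (algebraMap (RatFunc K) P.SplittingField) ≠ 0 := by
    rwa [Ne, Polynomial.map_eq_zero]
  have hsp1 : (p.map (algebraMap K P.SplittingField)).Splits := by
    have : (p.map (algebraMap K (RatFunc K))).map (algebraMap (RatFunc K) P.SplittingField) =
        p.map (algebraMap K P.SplittingField) := by
      rw [Polynomial.map_map, ← IsScalarTower.algebraMap_eq]
    rw [← this]
    refine hsp.of_dvd hPm ?_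
    exact Polynomial.map_dvd _ (Dvd.intro _ rfl)
  have hsp2 : (q.map (algebraMap (RatFunc K) P.SplittingField)).Splits := by
    refine hsp.of_dvd hPm ?_
    exact Polynomial.map_dvd _ (Dvd.intro_left _ rfl)
  let φ : L →ₐ[K] P.SplittingField := IsSplittingField.lift L p hsp1
  letI aL : Algebra L P.SplittingField := φ.toRingHom.toAlgebra
  have tL : IsScalarTower K L P.SplittingField := IsScalarTower.of_algebraMap_eq (fun x => (φ.commutes x).symm)
  have : Algebra.IsSeparable (RatFunc K) P.SplittingField := inferInstance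
  have : Normal (RatFunc K) P.SplittingField := Normal.of_isSplittingField P
  have gal : IsGalois (RatFunc K) P.SplittingField := ⟨⟩
  let res : (P.SplittingField ≃ₐ[RatFunc K] P.SplittingField) →* (L ≃ₐ[K] L) :=
    (AlgEquiv.restrictNormalHom (F := K) (K₁ := P.SplittingField) L).comp
      (AlgEquiv.restrictScalarsHom K)
  have hres : ∀ (h : P.SplittingField ≃ₐ[RatFunc K] P.SplittingField) (b : L),
        h (algebraMap L P.SplittingField b) = algebraMap L P.SplittingField (res h b) := by
    intro h b
    exact (AlgEquiv.restrictNormal_commutes (h.restrictScalars K) L b).symm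
  have hϖ : ∃ ϖ : P.SplittingField, ϖ ^ 2 = algebraMap (RatFunc K) _ RatFunc.X := by
    have hdeg : (q.map (algebraMap (RatFunc K) P.SplittingField)).degree ≠ 0 := by
      rw [Polynomial.degree_map]
      intro h
      have h0 : q.natDegree = 0 := by
        apply Polynomial.natDegree_eq_of_degree_eq_some
        simpa using h
      omega
    obtain ⟨a, ha⟩ := hsp2.exists_eval_eq_zero hdeg
    refine ⟨a, ?_⟩
    rw [hq] at ha
    simp at ha
    exact sub_eq_zero.1 ha
  obtain ⟨ϖ, hϖ⟩ := hϖ
  refine ⟨P.SplittingField, inferInstance, inferInstance, aL, inferInstance, inferInstance, tL,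
    inferInstance, gal, res, ϖ, ?_, hres, hϖ⟩
  -- surjectivity
  have hfix : IntermediateField.fixedField res.range = ⊥ := by
    rw [eq_bot_iff]
    intro b hb
    have hb' : ∀ h : P.SplittingField ≃ₐ[RatFunc K] P.SplittingField,
        h (algebraMap L P.SplittingField b) = algebraMap L P.SplittingField b := by
      intro h
      rw [hres]
      congr 1
      exact hb ⟨res h, ⟨h, rfl⟩⟩
    obtain ⟨f, hf⟩ := (IsGalois.mem_bot_iff_fixed (algebraMap L P.SplittingField b)).2 hb'
    have hint : IsIntegral K f := by
      have h1 : IsIntegral K (algebraMap L P.SplittingField b) :=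
        (Algebra.IsIntegral.isIntegral (R := K) b).algebraMap
      rw [← hf] at h1
      exact (isIntegral_algebraMap_iff (algebraMap (RatFunc K) P.SplittingField).injective).1 h1
    obtain ⟨c, hc⟩ := const_of_integral K f hint
    rw [IntermediateField.mem_bot]
    refine ⟨c, ?_⟩
    apply (algebraMap L P.SplittingField).injective
    rw [← hf, ← hc, ← IsScalarTower.algebraMap_apply]
    exact (IsScalarTower.algebraMap_apply K (RatFunc K) P.SplittingField c)
  have htop : res.range = ⊤ := by
    have := IntermediateField.fixingSubgroup_fixedField res.range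
    rw [hfix] at this
    rw [← this]
    exact IntermediateField.fixingSubgroup_bot
  exact MonoidHom.range_eq_top.1 htop

/-- LY: the field `L(y, √y)` over `K(y)`. -/
theorem t_ly : Pool.Agent.N70.EO.St_ly := by
  intro K L _ _ _ _ _ _
  exact ly K L

end Pool.Agent.N624.EO
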